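import Mathlib

set_option autoImplicit false
open Finset

namespace Pool.Agent.Results.MP_6c2242_co.Switch

def IsSteiner {V : Type} [Fintype V] (k : ℕ) (𝓑 : Set (Finset V)) : Prop :=
  2 ≤ k ∧ k ≤ Fintype.card V ∧ (∀ B ∈ 𝓑, B.card = k) ∧
    ∀ x y : V, x ≠ y → ∃! B, B ∈ 𝓑 ∧ x ∈ B ∧ y ∈ B

def StrictlyAdditive (G : Type) [AddCommGroup G] {V : Type} (𝓑 : Set (Finset V)) : Prop :=
  ∃ f : V ≃ G, ∀ B ∈ 𝓑, ∑ x ∈ B, f x = 0

def Regular (G : Type) [AddCommGroup G] {V : Type} (𝓑 : Set (Finset V)) : Prop :=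
  ∃ f : V ≃ G, ∀ B ∈ 𝓑, ∀ g : G, ∃ B' ∈ 𝓑, (fun x => f x + g) '' (B : Set V) = f '' (B' : Set V)

private def om (d : ℕ) : ℕ :=
  Nat.lor (Nat.shiftRight (Nat.land d 42) 1) (Nat.mul (Nat.land (Nat.xor d (Nat.shiftRight d 1)) 21) 2)
private def sw (d : ℕ) : ℕ :=
  Nat.lor (Nat.lor (Nat.land d 9) (Nat.mul (Nat.land d 2) 2)) (Nat.shiftRight (Nat.land d 4) 1)
private def t (x y : ℕ) : ℕ :=
  Nat.xor x (cond (Nat.ble (Nat.lor x y) 15) (sw (om (sw (Nat.xor x y)))) (om (Nat.xor x y)))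
private def tm (x y : ℕ) : ℕ := Nat.mod (t x y) 64
private def T (x y : Fin 64) : Fin 64 := Fin.ofNat 64 (t x.1 y.1)
private def l4 (x y : Fin 64) : List (Fin 64) := [x, y, T x y, T y x]
private def inl (x y z : ℕ) : Bool :=
  Nat.beq z x || (Nat.beq z y || (Nat.beq z (tm x y) || Nat.beq z (tm y x)))
private def colN (x y z : ℕ) : Bool := Nat.beq x y || inl x y z
private def col (x y z : Fin 64) : Bool := colN x.1 y.1 z.1
private def lN (x y : ℕ) : List ℕ := [x, y, tm x y, tm y x]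
private def ln (x y : ℕ) : List ℕ := cond (Nat.beq x y) (List.range 64) (lN x y)
private def L (x y : Fin 64) : Finset (Fin 64) := {x, y, T x y, T y x}
private def Bl : Set (Finset (Fin 64)) := {B | ∃ x y, x ≠ y ∧ B = L x y}
private def bits (x : Fin 64) : Fin 6 → ZMod 2 := fun i => if x.1.testBit i.1 then 1 else 0

private theorem mL (x y z : Fin 64) : z ∈ L x y ↔ z ∈ l4 x y := by simp [L, l4]

private theorem hT (x y : Fin 64) : (T x y).1 = tm x.1 y.1 := rfl

private theorem mI (x y z : Fin 64) : z ∈ l4 x y ↔ inl x.1 y.1 z.1 = true := by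
  simp [l4, inl, Fin.ext_iff, hT]

private theorem k0 : (List.range 64).all (fun x => (List.range 64).all fun y => Nat.beq x y ||
    (!Nat.beq x (tm x y) && !Nat.beq x (tm y x) && !Nat.beq y (tm x y) && !Nat.beq y (tm y x) &&
      !Nat.beq (tm x y) (tm y x) &&
      (lN x y).all fun z => (lN x y).all fun w => Nat.beq z w || inl x y (tm z w))) = true := by
  decide +kernel

private theorem k1 (x y : Fin 64) (h : x ≠ y) : (l4 x y).Nodup ∧
    ∀ z ∈ l4 x y, ∀ w ∈ l4 x y, z ≠ w → T z w ∈ l4 x y := by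
  have := List.all_eq_true.1 (List.all_eq_true.1 k0 x.1 (List.mem_range.2 x.2)) y.1
    (List.mem_range.2 y.2)
  simp only [Bool.or_eq_true, Bool.and_eq_true, Nat.beq_eq, Fin.val_ne_of_ne h, false_or,
    Bool.not_eq_true', List.all_eq_true, ← Bool.not_eq_true] at this
  refine ⟨?_, fun z hz w hw n => (mI _ _ _).2 ((this.2 z.1 ?_ w.1 ?_).resolve_left
    (Fin.val_ne_of_ne n))⟩
  · simp only [l4, List.nodup_cons, List.mem_cons, List.not_mem_nil, Fin.ext_iff, hT, or_false,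
      not_or, not_false_eq_true, List.nodup_nil, and_true]
    have := Fin.val_ne_of_ne h
    tauto
  · simpa [l4, lN, Fin.ext_iff, hT] using hz
  · simpa [l4, lN, Fin.ext_iff, hT] using hw

private theorem k2 : ∀ x y : Fin 64, x ≠ y →
    ∀ i, bits x i + (bits y i + (bits (T x y) i + bits (T y x) i)) = 0 := by decide +kernel

private theorem h1 (x y : Fin 64) (h : x ≠ y) : (L x y).card = 4 ∧ ∑ z ∈ L x y, bits z = 0 ∧
    ∀ z ∈ L x y, ∀ w ∈ L x y, z ≠ w → L z w = L x y := by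
  have e : ∀ x y, L x y = (l4 x y).toFinset := fun x y => by ext z; simp [mL]
  have c : ∀ x y, x ≠ y → (L x y).card = 4 := fun x y h => by
    rw [e, List.toFinset_card_of_nodup (k1 x y h).1]; rfl
  refine ⟨c x y h, ?_, fun z hz w hw n => eq_of_subset_of_card_le ?_ (by rw [c x y h, c z w n])⟩
  · rw [e, List.sum_toFinset _ (k1 x y h).1]
    funext i
    simpa [l4] using k2 x y h i
  · have a := (mL _ _ _).2 ((k1 x y h).2 z ((mL _ _ _).1 hz) w ((mL _ _ _).1 hw) n)
    have b := (mL _ _ _).2 ((k1 x y h).2 w ((mL _ _ _).1 hw) z ((mL _ _ _).1 hz) n.symm)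
    intro u hu
    simp only [L, mem_insert, mem_singleton] at hu
    rcases hu with rfl | rfl | rfl | rfl <;> assumption

private theorem h2 (x y z : Fin 64) (h : x ≠ y) : col x y z = true ↔ z ∈ L x y := by
  simp [col, colN, Fin.val_ne_of_ne h, mL, mI]

private theorem h3 (x y z : Fin 64) : col x y z = true ↔ ∃ B ∈ Bl, x ∈ B ∧ y ∈ B ∧ z ∈ B := by
  by_cases h : x = y
  · subst h
    refine ⟨fun _ => ?_, fun _ => by simp [col, colN]⟩
    by_cases e : x = z
    · subst e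
      obtain ⟨w, hw⟩ := exists_ne x
      exact ⟨L w x, ⟨w, x, hw, rfl⟩, by simp [L]⟩
    · exact ⟨L x z, ⟨x, z, e, rfl⟩, by simp [L]⟩
  · rw [h2 x y z h]
    refine ⟨fun k => ⟨L x y, ⟨x, y, h, rfl⟩, by simp [L], by simp [L], k⟩, ?_⟩
    rintro ⟨_, ⟨a, b, hab, rfl⟩, hx, hy, hz⟩
    rwa [(h1 a b hab).2.2 x hx y hy h]

private def bad (p a b : Fin 64) : Prop :=
  ∃ c, (col p a c = true ∧ c ≠ p ∧ c ≠ a) ∧ ∀ d, (col p b d = true ∧ d ≠ p ∧ d ≠ b) →
    ∀ z, col a b z = true → ¬ col c d z = true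

private def badN (p a b : ℕ) : Bool :=
  (ln p a).any fun c => (!Nat.beq c p && !Nat.beq c a) && (ln p b).all fun d =>
    (Nat.beq d p || Nat.beq d b) || (ln a b).all fun z => !colN c d z

private theorem mN (x y : Fin 64) (z : ℕ) : z ∈ ln x.1 y.1 ↔ z < 64 ∧ colN x.1 y.1 z = true := by
  have h (u v : ℕ) : tm u v < 64 := Nat.mod_lt _ (by norm_num)
  cases e : Nat.beq x.1 y.1
  · simp only [ln, colN, e, cond_false, Bool.false_or, lN, inl, Bool.or_eq_true, Nat.beq_eq,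
      List.mem_cons, List.not_mem_nil, or_false]
    refine ⟨fun k => ⟨?_, k⟩, fun k => k.2⟩
    rcases k with rfl | rfl | rfl | rfl
    exacts [x.2, y.2, h _ _, h _ _]
  · simp [ln, colN, e]

private theorem hb (p a b : Fin 64) : badN p.1 a.1 b.1 = true ↔ bad p a b := by
  simp only [badN, bad, col, List.any_eq_true, List.all_eq_true, mN, Bool.and_eq_true,
    Bool.or_eq_true, Nat.beq_eq, Bool.not_eq_true', ← Bool.not_eq_true, Fin.exists_iff,
    Fin.forall_iff, ne_eq, Fin.ext_iff]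
  constructor
  · rintro ⟨c, ⟨h1, h2⟩, h3, h4⟩
    exact ⟨c, h1, ⟨h2, h3⟩, fun d hd k z hz l =>
      ((h4 d ⟨hd, k.1⟩).resolve_left (not_or.2 k.2)) z ⟨hz, l⟩⟩
  · rintro ⟨c, h1, ⟨h2, h3⟩, h4⟩
    exact ⟨c, ⟨h1, h2⟩, h3, fun d k => or_iff_not_imp_left.2 fun n z l =>
      h4 d k.1 ⟨k.2, not_or.1 n⟩ z l.1 l.2⟩

private instance (p a b : Fin 64) : Decidable (bad p a b) := decidable_of_iff _ (hb p a b)

private theorem h4 : ∀ a, (univ.filter (bad 16 a)).card < 40 := by decide +kernel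
private theorem h5 : ∃ a, 40 ≤ (univ.filter (bad 0 a)).card := ⟨2, by decide +kernel⟩

theorem result : ∃ (G : Type) (_ : AddCommGroup G) (_ : Finite G) (V : Type) (_ : Fintype V)
    (k : ℕ) (𝓑 : Set (Finset V)), IsSteiner k 𝓑 ∧ StrictlyAdditive G 𝓑 ∧ ¬ Regular G 𝓑 := by
  refine ⟨Fin 6 → ZMod 2, inferInstance, inferInstance, Fin 64, inferInstance, 4, Bl,
    ⟨by norm_num, by simp, ?_, fun x y h => ⟨L x y, ⟨⟨x, y, h, rfl⟩, by simp [L]⟩, ?_⟩⟩,
    ⟨Equiv.ofBijective bits ((Fintype.bijective_iff_injective_and_card _).2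
      ⟨by unfold Function.Injective; decide +kernel, by simp⟩), ?_⟩, ?_⟩
  · rintro _ ⟨x, y, h, rfl⟩
    exact (h1 x y h).1
  · rintro _ ⟨⟨a, b, hab, rfl⟩, hx, hy⟩
    exact ((h1 a b hab).2.2 x hx y hy h).symm
  · rintro _ ⟨x, y, h, rfl⟩
    exact (h1 x y h).2.1
  · rintro ⟨f, hf⟩
    have A : ∀ g x y z, col x y z = true →
        col (f.symm (f x + g)) (f.symm (f y + g)) (f.symm (f z + g)) = true := by
      intro g x y z h
      obtain ⟨B, hB, hx, hy, hz⟩ := (h3 _ _ _).1 h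
      obtain ⟨B', hB', e⟩ := hf B hB g
      have m : ∀ w ∈ B, f.symm (f w + g) ∈ B' := fun w hw => by
        obtain ⟨u, hu, e2⟩ := e.subset ⟨w, hw, rfl⟩
        rw [← show f u = f w + g from e2, f.symm_apply_apply]
        exact hu
      exact (h3 _ _ _).2 ⟨B', hB', m x hx, m y hy, m z hz⟩
    let s : Fin 64 ≃ Fin 64 := f.trans ((Equiv.addRight (f 16 - f 0)).trans f.symm)
    have C : ∀ x y z, col (s x) (s y) (s z) = true ↔ col x y z = true := fun x y z =>
      ⟨fun h => by simpa [s, -neg_sub] using A (-(f 16 - f 0)) _ _ _ h, A _ x y z⟩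
    have D : ∀ p a b, bad (s p) (s a) (s b) ↔ bad p a b := by
      intro p a b
      unfold bad
      rw [s.surjective.exists]
      refine exists_congr fun c => and_congr (by simp [C]) ?_
      rw [s.surjective.forall]
      refine forall_congr' fun d => imp_congr (by simp [C]) ?_
      rw [s.surjective.forall]
      simp only [C]
    obtain ⟨a, ha⟩ := h5
    have := h4 (s a)
    rw [← card_equiv s (s := univ.filter (bad 0 a)) (fun b => by
      rw [mem_filter_univ, mem_filter_univ, ← D, show s 0 = 16 by simp [s]])] at this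
    omega

end Pool.Agent.Results.MP_6c2242_co.Switch
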